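import Mathlib

/-!
# Sizes of additive subgroups of a finite field

`V`, `W` additive subgroups of a finite field `F`: `|V| |W| ≤ |F|` iff some non-zero multiple `a W`
of `W` meets `V` in `0` only.
-/

set_option autoImplicit false

namespace Pool.Agent.AB46

open scoped Classical in
theorem card_mul_le_iff {F : Type*} [Field F] [Finite F] (V W : AddSubgroup F) :
    Nat.card V * Nat.card W ≤ Nat.card F ↔ ∃ a : F, a ≠ 0 ∧ ∀ w ∈ W, a * w ∈ V → w = 0 := by
  have := Fintype.ofFinite F
  constructor
  · intro h
    by_contra hc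
    push Not at hc
    -- every non-zero `a` is a quotient of non-zero elements of `V` and `W`
    have hsurj : ∀ a : {a : F // a ≠ 0}, ∃ x : {v : V // v ≠ 0} × {w : W // w ≠ 0},
        (x.1.1 : F) * (x.2.1 : F)⁻¹ = a := by
      rintro ⟨a, ha⟩
      obtain ⟨w, hw, hv, hw0⟩ := hc a ha
      refine ⟨(⟨⟨a * w, hv⟩, ?_⟩, ⟨⟨w, hw⟩, ?_⟩), ?_⟩
      · intro h0
        have := congrArg Subtype.val h0
        simp only [ZeroMemClass.coe_zero] at this
        exact (mul_ne_zero ha hw0) this
      · intro h0
        exact hw0 (congrArg Subtype.val h0)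
      · simp only
        rw [mul_assoc, mul_inv_cancel₀ hw0, mul_one]
    choose f hf using hsurj
    have hinj : Function.Injective f := by
      intro a b hab
      apply Subtype.ext
      rw [← hf a, ← hf b, hab]
    have hcard := Nat.card_le_card_of_injective f hinj
    have e1 : Nat.card {a : F // a ≠ 0} = Nat.card F - 1 := by
      rw [Nat.card_eq_fintype_card, Nat.card_eq_fintype_card, Fintype.card_subtype_compl,
        Fintype.card_subtype_eq]
    have e2 : Nat.card {v : V // v ≠ 0} = Nat.card V - 1 := by
      rw [Nat.card_eq_fintype_card, Nat.card_eq_fintype_card, Fintype.card_subtype_compl,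
        Fintype.card_subtype_eq]
    have e3 : Nat.card {w : W // w ≠ 0} = Nat.card W - 1 := by
      rw [Nat.card_eq_fintype_card, Nat.card_eq_fintype_card, Fintype.card_subtype_compl,
        Fintype.card_subtype_eq]
    rw [Nat.card_prod, e1, e2, e3] at hcard
    have hV : 1 ≤ Nat.card V := Nat.card_pos
    have hW : 1 ≤ Nat.card W := Nat.card_pos
    have hF : 2 ≤ Nat.card F := by
      rw [Nat.card_eq_fintype_card]
      exact Fintype.one_lt_card
    obtain ⟨x, hx⟩ := Nat.exists_eq_add_of_le hV
    obtain ⟨y, hy⟩ := Nat.exists_eq_add_of_le hW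
    obtain ⟨z, hz⟩ := Nat.exists_eq_add_of_le hF
    rw [hx, hy, hz] at hcard h
    have e4 : (1 + x - 1) * (1 + y - 1) = x * y := by simp
    rw [e4] at hcard
    have e5 : (1 + x) * (1 + y) = 1 + x + y + x * y := by ring
    rw [e5] at h
    have e6 : 2 + z - 1 = 1 + z := by omega
    rw [e6] at hcard
    -- `1 + z ≤ x y`, `1 + x + y + x y ≤ 2 + z`
    have h1 : x + y ≤ 0 := by omega
    have h2 : x = 0 := by omega
    have h3 : y = 0 := by omega
    subst h2
    omega
  · rintro ⟨a, ha, h⟩
    let f : V × W → F := fun x => (x.1 : F) - a * (x.2 : F)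
    have hinj : Function.Injective f := by
      rintro ⟨v, w⟩ ⟨v', w'⟩ hvw
      have h1 : (v : F) - a * (w : F) = (v' : F) - a * (w' : F) := hvw
      have h2 : a * ((w : F) - w') = (v : F) - v' := by linear_combination -h1
      have h3 : (w : F) - w' = 0 := h _ (W.sub_mem w.2 w'.2) (by
        rw [h2]; exact V.sub_mem v.2 v'.2)
      have h4 : (v : F) - v' = 0 := by rw [← h2, h3, mul_zero]
      exact Prod.ext (Subtype.ext (sub_eq_zero.mp h4)) (Subtype.ext (sub_eq_zero.mp h3))
    have := Nat.card_le_card_of_injective f hinj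
    rwa [Nat.card_prod] at this

end Pool.Agent.AB46
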