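import Mathlib

/-!
# The double annihilator in a finite abelian group

`G = ∏ ZMod (m i)`, `M` a common multiple of the `m i`. The pairing of `x` and `y` is
`∑ x_i y_i / m_i` modulo `1`; multiplied by `M` it is the natural number `pair m M x y`. A subgroup
`H` is the set of all `x` which are orthogonal to all `y` that are orthogonal to `H`.
-/

set_option autoImplicit false

namespace Pool.Agent.AB46

open Complex

/-- `M` times the pairing of `x` and `y`. -/
def pair {k : ℕ} (m : Fin k → ℕ) (M : ℕ) (x y : ∀ i, ZMod (m i)) : ℕ :=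
  ∑ i, (x i).val * (y i).val * (M / m i)

/-- Every character of `∏ ZMod (m i)` is given by the pairing with some `y`. -/
theorem exists_pair {k : ℕ} {m : Fin k → ℕ} {M : ℕ} (hM : M ≠ 0) (hm : ∀ i, m i ≠ 0)
    (hd : ∀ i, m i ∣ M) (χ : AddChar (∀ i, ZMod (m i)) ℂ) {ζ : ℂ} (hζ : IsPrimitiveRoot ζ M) :
    ∃ y : ∀ i, ZMod (m i), ∀ x, χ x = ζ ^ pair m M x y := by
  classical
  have hne : ∀ i, NeZero (m i) := fun i => ⟨hm i⟩
  have h1 : ∀ i, ∃ j < m i, (ζ ^ (M / m i)) ^ j = χ (Pi.single i 1) := by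
    intro i
    have hp : IsPrimitiveRoot (ζ ^ (M / m i)) (m i) := by
      refine hζ.pow (Nat.pos_of_ne_zero hM) ?_
      exact (Nat.div_mul_cancel (hd i)).symm
    refine hp.eq_pow_of_pow_eq_one ?_
    rw [← AddChar.map_nsmul_eq_pow]
    have h0 : (m i) • (Pi.single i 1 : ∀ i, ZMod (m i)) = 0 := by
      ext j
      by_cases hj : j = i
      · subst hj
        simp
      · simp [Pi.single_eq_of_ne hj]
    rw [h0, AddChar.map_zero_eq_one]
  choose j hj hj2 using h1
  refine ⟨fun i => (j i : ZMod (m i)), fun x => ?_⟩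
  have hx : x = ∑ i, (x i).val • (Pi.single i 1 : ∀ i, ZMod (m i)) := by
    ext l
    rw [Finset.sum_apply, Finset.sum_eq_single l]
    · simp
    · intro b _ hb
      simp [Pi.single_eq_of_ne hb.symm]
    · intro h
      exact absurd (Finset.mem_univ l) h
  have hχ : χ x = ∏ i, χ (Pi.single i 1) ^ (x i).val := by
    conv_lhs => rw [hx]
    have hs : ∀ s : Finset (Fin k), χ (∑ i ∈ s, (x i).val • (Pi.single i 1 : ∀ i, ZMod (m i))) =
        ∏ i ∈ s, χ (Pi.single i 1) ^ (x i).val := by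
      intro s
      induction s using Finset.induction_on with
      | empty => simp
      | insert a s ha ih =>
        rw [Finset.sum_insert ha, Finset.prod_insert ha, AddChar.map_add_eq_mul, ih,
          AddChar.map_nsmul_eq_pow]
    exact hs Finset.univ
  rw [hχ, pair, ← Finset.prod_pow_eq_pow_sum]
  refine Finset.prod_congr rfl fun i _ => ?_
  rw [← hj2 i, ZMod.val_natCast_of_lt (hj i), ← pow_mul, ← pow_mul]
  congr 1
  ring

/-- **Double annihilator.** -/
theorem mem_iff {k : ℕ} {m : Fin k → ℕ} {M : ℕ} (hM : M ≠ 0) (hm : ∀ i, m i ≠ 0)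
    (hd : ∀ i, m i ∣ M) (H : AddSubgroup (∀ i, ZMod (m i))) (x : ∀ i, ZMod (m i)) :
    x ∈ H ↔ ∀ y, (∀ h ∈ H, M ∣ pair m M h y) → M ∣ pair m M x y := by
  classical
  have hne : ∀ i, NeZero (m i) := fun i => ⟨hm i⟩
  constructor
  · intro hx y hy
    exact hy x hx
  · intro h
    by_contra hx
    have hq : (QuotientAddGroup.mk x : (∀ i, ZMod (m i)) ⧸ H) ≠ 0 := by
      intro h0
      exact hx ((QuotientAddGroup.eq_zero_iff x).mp h0)
    have hfin : Finite ((∀ i, ZMod (m i)) ⧸ H) := inferInstance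
    obtain ⟨ψ, hψ⟩ := AddChar.exists_apply_ne_zero.mpr hq
    have hζ := Complex.isPrimitiveRoot_exp M hM
    let χ : AddChar (∀ i, ZMod (m i)) ℂ := ψ.compAddMonoidHom (QuotientAddGroup.mk' H)
    obtain ⟨y, hy⟩ := exists_pair hM hm hd χ hζ
    have hH : ∀ g ∈ H, M ∣ pair m M g y := by
      intro g hg
      rw [← hζ.pow_eq_one_iff_dvd, ← hy g]
      have : (QuotientAddGroup.mk' H) g = 0 := (QuotientAddGroup.eq_zero_iff g).mpr hg
      show ψ ((QuotientAddGroup.mk' H) g) = 1
      rw [this, AddChar.map_zero_eq_one]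
    have h2 := h y hH
    rw [← hζ.pow_eq_one_iff_dvd, ← hy x] at h2
    exact hψ h2

theorem pair_add {k : ℕ} {m : Fin k → ℕ} {M : ℕ} (hm : ∀ i, m i ≠ 0) (hd : ∀ i, m i ∣ M)
    (a b y : ∀ i, ZMod (m i)) :
    ((pair m M (a + b) y : ℕ) : ZMod M) = (pair m M a y : ℕ) + (pair m M b y : ℕ) := by
  have hne : ∀ i, NeZero (m i) := fun i => ⟨hm i⟩
  rw [pair, pair, pair]
  push_cast
  rw [← Finset.sum_add_distrib]
  refine Finset.sum_congr rfl fun i _ => ?_
  have h1 : ((m i * (M / m i) : ℕ) : ZMod M) = 0 := by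
    rw [Nat.mul_div_cancel' (hd i), ZMod.natCast_self]
  have h2 : (((a + b) i).val : ZMod M) * ((M / m i : ℕ) : ZMod M) =
      ((a i).val + (b i).val : ZMod M) * ((M / m i : ℕ) : ZMod M) := by
    rw [Pi.add_apply, ZMod.val_add]
    have h3 := Nat.mod_add_div ((a i).val + (b i).val) (m i)
    have h4 : (((a i).val + (b i).val : ℕ) : ZMod M) =
        ((((a i).val + (b i).val) % m i : ℕ) : ZMod M) +
          (m i : ZMod M) * ((((a i).val + (b i).val) / m i : ℕ) : ZMod M) := by
      rw [← Nat.cast_mul, ← Nat.cast_add, h3]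
    push_cast at h4 h1
    rw [h4, add_mul, mul_assoc]
    have h5 : (m i : ZMod M) * (((((a i).val + (b i).val) / m i : ℕ) : ZMod M) *
        ((M / m i : ℕ) : ZMod M)) = 0 := by
      rw [mul_comm (((((a i).val + (b i).val) / m i : ℕ) : ZMod M)), ← mul_assoc, h1, zero_mul]
    rw [h5, add_zero]
  linear_combination ((y i).val : ZMod M) * h2

theorem pair_zero {k : ℕ} {m : Fin k → ℕ} {M : ℕ} (y : ∀ i, ZMod (m i)) :
    pair m M 0 y = 0 := by
  simp [pair]

theorem pair_comm {k : ℕ} {m : Fin k → ℕ} {M : ℕ} (x y : ∀ i, ZMod (m i)) :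
    pair m M x y = pair m M y x := by
  rw [pair, pair]
  exact Finset.sum_congr rfl fun i _ => by ring

/-- the annihilator of `y` -/
def ann {k : ℕ} (m : Fin k → ℕ) (M : ℕ) (hm : ∀ i, m i ≠ 0) (hd : ∀ i, m i ∣ M)
    (y : ∀ i, ZMod (m i)) : AddSubgroup (∀ i, ZMod (m i)) where
  carrier := {x | M ∣ pair m M x y}
  zero_mem' := by
    show M ∣ pair m M 0 y
    rw [pair_zero]; exact dvd_zero _
  add_mem' := by
    intro a b ha hb
    show M ∣ pair m M (a + b) y
    rw [← ZMod.natCast_eq_zero_iff, pair_add hm hd, (ZMod.natCast_eq_zero_iff _ _).mpr ha,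
      (ZMod.natCast_eq_zero_iff _ _).mpr hb, add_zero]
  neg_mem' := by
    intro a ha
    show M ∣ pair m M (-a) y
    have h := pair_add hm hd a (-a) y
    rw [add_neg_cancel, pair_zero, (ZMod.natCast_eq_zero_iff _ _).mpr ha, zero_add,
      Nat.cast_zero] at h
    exact (ZMod.natCast_eq_zero_iff _ _).mp h.symm

/-- **Double annihilator of a set**: the subgroup generated by `A`. -/
theorem mem_closure_iff {k : ℕ} {m : Fin k → ℕ} {M : ℕ} (hM : M ≠ 0) (hm : ∀ i, m i ≠ 0)
    (hd : ∀ i, m i ∣ M) (A : Set (∀ i, ZMod (m i))) (x : ∀ i, ZMod (m i)) :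
    x ∈ AddSubgroup.closure A ↔ ∀ y, (∀ a ∈ A, M ∣ pair m M a y) → M ∣ pair m M x y := by
  rw [mem_iff hM hm hd]
  refine forall_congr' fun y => ?_
  have : (∀ h ∈ AddSubgroup.closure A, M ∣ pair m M h y) ↔ ∀ a ∈ A, M ∣ pair m M a y := by
    constructor
    · intro h a ha
      exact h a (AddSubgroup.subset_closure ha)
    · intro h
      have h1 : AddSubgroup.closure A ≤ ann m M hm hd y := by
        rw [AddSubgroup.closure_le]
        exact h
      intro g hg
      exact h1 hg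
  rw [this]

end Pool.Agent.AB46
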