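import Mathlib

/-!
# Krylov spaces are spanned by resolvents

`K` a field, `T` an endomorphism of a finite dimensional space `V`, `w : V`. The Krylov space of `w`
is spanned by the vectors `T ^ n w`. If `A` is a set of at least `dim V` elements `a` of `K` with
`1 - a T` injective, then it is also spanned by the solutions `u` of `u - a T u = w`, `a ∈ A`.
-/

set_option autoImplicit false

namespace Pool.Agent.AB46

open Polynomial Module

variable {K V : Type*} [Field K] [AddCommGroup V] [Module K V]

/-- The Krylov space of `w`. -/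
def krylov (T : End K V) (w : V) : Submodule K V :=
  Submodule.span K (Set.range fun n : ℕ => (T ^ n) w)

theorem aeval_mem (T : End K V) (w : V) (P : K[X]) : aeval T P w ∈ krylov T w := by
  rw [aeval_eq_sum_range, LinearMap.sum_apply]
  refine Submodule.sum_mem _ fun i _ => ?_
  rw [LinearMap.smul_apply]
  exact Submodule.smul_mem _ _ (Submodule.subset_span ⟨i, rfl⟩)

theorem mem_krylov_iff {T : End K V} {w x : V} :
    x ∈ krylov T w ↔ ∃ P : K[X], aeval T P w = x := by
  constructor
  · intro hx
    refine Submodule.span_induction (p := fun x _ => ∃ P : K[X], aeval T P w = x) ?_ ?_ ?_ ?_ hx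
    · rintro _ ⟨n, rfl⟩
      exact ⟨X ^ n, by simp⟩
    · exact ⟨0, by simp⟩
    · rintro x y _ _ ⟨P, rfl⟩ ⟨Q, rfl⟩
      exact ⟨P + Q, by simp⟩
    · rintro c x _ ⟨P, rfl⟩
      exact ⟨C c * P, by rw [← smul_eq_C_mul]; simp⟩
  · rintro ⟨P, rfl⟩
    exact aeval_mem T w P

/-- The minimal polynomial of `w`. -/
theorem exists_min [FiniteDimensional K V] (T : End K V) (w : V) : ∃ μ : K[X], μ.Monic ∧
    aeval T μ w = 0 ∧ ∀ P : K[X], aeval T P w = 0 → P.degree < μ.degree → P = 0 := by
  classical
  have hex : ∃ n : ℕ, ∃ μ : K[X], μ.Monic ∧ aeval T μ w = 0 ∧ μ.natDegree = n :=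
    ⟨_, T.charpoly, T.charpoly_monic, by
      rw [LinearMap.aeval_self_charpoly]; rfl, rfl⟩
  obtain ⟨μ, hμ, h0, hn⟩ := Nat.find_spec hex
  refine ⟨μ, hμ, h0, fun P hP hdeg => ?_⟩
  by_contra hP0
  have hlt : P.natDegree < μ.natDegree := natDegree_lt_natDegree hP0 hdeg
  have hlc : P.leadingCoeff ≠ 0 := leadingCoeff_ne_zero.mpr hP0
  refine Nat.find_min hex (m := P.natDegree) (by rw [← hn]; exact hlt)
    ⟨C P.leadingCoeff⁻¹ * P, ?_, ?_, ?_⟩
  · rw [mul_comm]
    exact monic_mul_leadingCoeff_inv hP0
  · rw [← smul_eq_C_mul, map_smul, LinearMap.smul_apply, hP, smul_zero]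
  · rw [natDegree_C_mul (inv_ne_zero hlc)]

theorem aeval_modByMonic {T : End K V} {w : V} {μ : K[X]}
    (h0 : aeval T μ w = 0) (P : K[X]) : aeval T (P %ₘ μ) w = aeval T P w := by
  conv_rhs => rw [← modByMonic_add_div P μ]
  rw [map_add, LinearMap.add_apply, mul_comm μ, map_mul, Module.End.mul_apply, h0, map_zero,
    add_zero]

theorem finrank_krylov_le [FiniteDimensional K V] {T : End K V} {w : V} {μ : K[X]}
    (hμ : μ.Monic) (h0 : aeval T μ w = 0) : finrank K (krylov T w) ≤ μ.natDegree := by
  classical
  by_cases h1 : μ = 1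
  · subst h1
    have hw : w = 0 := by simpa using h0
    have : krylov T w = ⊥ := by
      rw [krylov, Submodule.span_eq_bot]
      rintro _ ⟨n, rfl⟩
      simp [hw]
    rw [this]
    simp
  have h2 : krylov T w ≤ Submodule.span K (Set.range fun n : Fin μ.natDegree => (T ^ (n : ℕ)) w) := by
    intro x hx
    obtain ⟨P, rfl⟩ := mem_krylov_iff.mp hx
    rw [← aeval_modByMonic h0, aeval_eq_sum_range' (natDegree_modByMonic_lt P hμ h1),
      LinearMap.sum_apply]
    refine Submodule.sum_mem _ fun i hi => ?_
    rw [LinearMap.smul_apply]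
    exact Submodule.smul_mem _ _ (Submodule.subset_span ⟨⟨i, Finset.mem_range.mp hi⟩, rfl⟩)
  refine (Submodule.finrank_mono h2).trans ?_
  refine (finrank_range_le_card (R := K) (fun n : Fin μ.natDegree => (T ^ (n : ℕ)) w)).trans ?_
  rw [Fintype.card_fin]

/-- A solution of `u - a T u = w` lies in the Krylov space, if `1 - a T` is injective. -/
theorem mem_krylov_of_eq [FiniteDimensional K V] {T : End K V} {w : V} {a : K}
    (ha : ∀ u, u - a • T u = 0 → u = 0) {u : V} (hu : u - a • T u = w) : u ∈ krylov T w := by
  have hst : ∀ x ∈ krylov T w, T x ∈ krylov T w := by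
    intro x hx
    obtain ⟨P, rfl⟩ := mem_krylov_iff.mp hx
    refine mem_krylov_iff.mpr ⟨X * P, ?_⟩
    rw [map_mul, Module.End.mul_apply, aeval_X]
  let S : End K V := 1 - a • T
  have hS : ∀ x ∈ krylov T w, S x ∈ krylov T w := by
    intro x hx
    have : S x = x - a • T x := rfl
    rw [this]
    exact Submodule.sub_mem _ hx (Submodule.smul_mem _ _ (hst x hx))
  have hinj : Function.Injective (S.restrict hS) := by
    rw [← LinearMap.ker_eq_bot, LinearMap.ker_eq_bot']
    rintro ⟨x, hx⟩ h
    have h1 : S x = 0 := congrArg Subtype.val h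
    have h2 : x = 0 := ha x h1
    exact Subtype.ext h2
  have hsurj := LinearMap.injective_iff_surjective.mp hinj
  have hw : w ∈ krylov T w := mem_krylov_iff.mpr ⟨1, by simp⟩
  obtain ⟨⟨x, hx⟩, hxw⟩ := hsurj ⟨w, hw⟩
  have h1 : S x = w := congrArg Subtype.val hxw
  have h2 : u - x = 0 := by
    apply ha
    have h3 : x - a • T x = w := h1
    rw [map_sub, smul_sub]
    have : u - x - (a • T u - a • T x) = (u - a • T u) - (x - a • T x) := by abel
    rw [this, hu, h3, sub_self]
  rw [sub_eq_zero.mp h2]
  exact hx

/-- The resolvents for different `a`, at most as many as the degree of the minimal polynomial of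
`w`, are linearly independent. -/
theorem linearIndependent_resolvents {T : End K V} {w : V} {μ : K[X]}
    (hmin : ∀ P : K[X], aeval T P w = 0 → P.degree < μ.degree → P = 0) {ι : Type*} [Fintype ι]
    (hι : (Fintype.card ι : WithBot ℕ) ≤ μ.degree) (a : ι → K) (hinj : Function.Injective a)
    (u : ι → V) (hu : ∀ i, u i - a i • T (u i) = w) : LinearIndependent K u := by
  classical
  rw [Fintype.linearIndependent_iff]
  intro c hc
  let f : ι → K[X] := fun i => 1 - C (a i) * X
  let D : ι → K[X] := fun i => ∏ j ∈ Finset.univ.erase i, f j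
  have hf : ∀ i, aeval T (f i) (u i) = w := by
    intro i
    have : aeval T (f i) = 1 - a i • T := by
      simp only [f, map_sub, map_one, map_mul, aeval_X, aeval_C]
      congr 1
    rw [this]
    exact hu i
  have hD : ∀ i, aeval T (∏ j, f j) (u i) = aeval T (D i) w := by
    intro i
    rw [← Finset.mul_prod_erase Finset.univ f (Finset.mem_univ i), mul_comm, map_mul,
      Module.End.mul_apply, hf i]
  let N : K[X] := ∑ i, C (c i) * D i
  have hN : aeval T N w = 0 := by
    have h1 : aeval T (∏ j, f j) (∑ i, c i • u i) = 0 := by rw [hc, map_zero]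
    rw [map_sum] at h1
    simp only [map_smul, hD] at h1
    simp only [N, map_sum, LinearMap.sum_apply]
    rw [← h1]
    refine Finset.sum_congr rfl fun i _ => ?_
    rw [← smul_eq_C_mul, map_smul, LinearMap.smul_apply]
  have hdegf : ∀ i, (f i).degree ≤ 1 := by
    intro i
    refine (degree_sub_le _ _).trans (max_le ?_ ?_)
    · exact degree_one_le.trans (by norm_num)
    · exact (degree_C_mul_X_le _)
  have hdegD : ∀ i, (D i).degree < Fintype.card ι := by
    intro i
    refine lt_of_le_of_lt (degree_prod_le _ _) ?_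
    refine lt_of_le_of_lt (Finset.sum_le_sum fun j _ => hdegf j) ?_
    rw [Finset.sum_const, Finset.card_erase_of_mem (Finset.mem_univ i), Finset.card_univ]
    have hpos : 0 < Fintype.card ι := Fintype.card_pos_iff.mpr ⟨i⟩
    rw [nsmul_eq_mul, mul_one]
    exact_mod_cast Nat.sub_lt hpos one_pos
  have hdegN : N.degree < μ.degree := by
    refine lt_of_lt_of_le ?_ hι
    refine (degree_sum_le _ _).trans_lt ?_
    rw [Finset.sup_lt_iff (WithBot.bot_lt_coe _)]
    intro i _
    refine lt_of_le_of_lt ((degree_mul_le _ _).trans (add_le_add degree_C_le le_rfl)) ?_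
    rw [zero_add]
    exact hdegD i
  have hN0 : N = 0 := hmin N hN hdegN
  have hev : ∀ i j, i ≠ j → ∀ x : K, 1 - a i * x = 0 → (D j).eval x = 0 := by
    intro i j hij x hx
    rw [eval_prod]
    refine Finset.prod_eq_zero (Finset.mem_erase.mpr ⟨hij, Finset.mem_univ i⟩) ?_
    simp [f, hx]
  have hne : ∀ i, a i ≠ 0 → c i = 0 := by
    intro i hi
    have h1 : N.eval (a i)⁻¹ = 0 := by rw [hN0, eval_zero]
    have hx : 1 - a i * (a i)⁻¹ = 0 := by rw [mul_inv_cancel₀ hi, sub_self]
    rw [eval_finsetSum, Finset.sum_eq_single i] at h1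
    · rw [eval_mul, eval_C] at h1
      rcases mul_eq_zero.mp h1 with h | h
      · exact h
      · exfalso
        rw [eval_prod, Finset.prod_eq_zero_iff] at h
        obtain ⟨j, hj, hj0⟩ := h
        have h2 : 1 - a j * (a i)⁻¹ = 0 := by simpa [f] using hj0
        have h3 : a j = a i := by
          have := sub_eq_zero.mp h2
          field_simp at this
          exact this.symm
        exact (Finset.mem_erase.mp hj).1 (hinj h3)
    · intro j _ hji
      rw [eval_mul, hev i j hji.symm _ hx, mul_zero]
    · intro h
      exact absurd (Finset.mem_univ i) h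
  intro i
  by_cases hi : a i = 0
  · have h1 : N = C (c i) * D i := by
      refine Finset.sum_eq_single i ?_ ?_
      · intro j _ hji
        have : a j ≠ 0 := by
          intro h
          exact hji (hinj (h.trans hi.symm))
        rw [hne j this, C_0, zero_mul]
      · intro h
        exact absurd (Finset.mem_univ i) h
    have h2 : N.eval 0 = 0 := by rw [hN0, eval_zero]
    rw [h1, eval_mul, eval_C, eval_prod] at h2
    have h3 : ∏ j ∈ Finset.univ.erase i, eval 0 (f j) = 1 := by
      refine Finset.prod_eq_one fun j _ => ?_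
      simp [f]
    rw [h3, mul_one] at h2
    exact h2
  · exact hne i hi

/-- **Resolvents span the Krylov space.** -/
theorem span_resolvents [FiniteDimensional K V] (T : End K V) (w : V) (A : Finset K)
    (hA : ∀ a ∈ A, ∀ u, u - a • T u = 0 → u = 0) (hcard : finrank K V ≤ A.card) :
    Submodule.span K {u | ∃ a ∈ A, u - a • T u = w} = krylov T w := by
  classical
  apply le_antisymm
  · rw [Submodule.span_le]
    rintro u ⟨a, ha, hu⟩
    exact mem_krylov_of_eq (hA a ha) hu
  obtain ⟨μ, hμ, h0, hmin⟩ := exists_min T w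
  -- the degree of `μ` is at most `dim V`
  have hdeg : μ.natDegree ≤ finrank K V := by
    have hli : LinearIndependent K (fun n : Fin μ.natDegree => (T ^ (n : ℕ)) w) := by
      rw [Fintype.linearIndependent_iff]
      intro c hc
      let P : K[X] := ∑ n : Fin μ.natDegree, C (c n) * X ^ (n : ℕ)
      have hP : aeval T P w = 0 := by
        rw [← hc]
        simp only [P, map_sum, LinearMap.sum_apply]
        refine Finset.sum_congr rfl fun i _ => ?_
        rw [← smul_eq_C_mul, map_smul, LinearMap.smul_apply, map_pow, aeval_X]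
      have hPd : P.degree < μ.degree := by
        rw [degree_eq_natDegree hμ.ne_zero]
        refine (degree_sum_le _ _).trans_lt ?_
        rw [Finset.sup_lt_iff (WithBot.bot_lt_coe _)]
        intro i _
        refine (degree_C_mul_X_pow_le _ _).trans_lt ?_
        exact_mod_cast i.2
      have hP0 := hmin P hP hPd
      intro i
      have h1 : P.coeff i = c i := by
        simp only [P, finsetSum_coeff, coeff_C_mul, coeff_X_pow]
        rw [Finset.sum_eq_single i]
        · simp
        · intro j _ hji
          rw [if_neg, mul_zero]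
          intro h
          exact hji (Fin.ext h).symm
        · intro h
          exact absurd (Finset.mem_univ i) h
      rw [← h1, hP0, coeff_zero]
    simpa using hli.fintype_card_le_finrank
  obtain ⟨B, hBA, hBc⟩ := Finset.exists_subset_card_eq (hdeg.trans hcard)
  -- resolvents
  have hsol : ∀ a : B, ∃ u : V, u - (a : K) • T u = w := by
    intro a
    let S : End K V := 1 - (a : K) • T
    have hinj : Function.Injective S := by
      rw [← LinearMap.ker_eq_bot, LinearMap.ker_eq_bot']
      intro x h
      exact hA a (hBA a.2) x h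
    obtain ⟨u, hu⟩ := LinearMap.injective_iff_surjective.mp hinj w
    exact ⟨u, hu⟩
  choose u hu using hsol
  have hli : LinearIndependent K u := by
    refine linearIndependent_resolvents hmin ?_ (fun a : B => (a : K)) Subtype.val_injective u hu
    rw [degree_eq_natDegree hμ.ne_zero, Fintype.card_coe, hBc]
  have hle : Submodule.span K (Set.range u) ≤ krylov T w := by
    rw [Submodule.span_le]
    rintro _ ⟨a, rfl⟩
    exact mem_krylov_of_eq (hA a (hBA a.2)) (hu a)
  have heq : Submodule.span K (Set.range u) = krylov T w := by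
    refine Submodule.eq_of_le_of_finrank_le hle ?_
    rw [finrank_span_eq_card hli, Fintype.card_coe, hBc]
    exact finrank_krylov_le hμ h0
  rw [← heq, Submodule.span_le]
  rintro _ ⟨a, rfl⟩
  exact Submodule.subset_span ⟨a, hBA a.2, hu a⟩

end Pool.Agent.AB46
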