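import Mathlib

/-!
# Quotient and remainder by coefficient extraction

In a field with more than `d + 1` elements the coefficients of a polynomial of degree `≤ d` are sums
over the non-zero elements. `coeff_div_eq_sum` gives in this way the coefficients of the quotient of
`G` by a monic polynomial `ν` from the values of `G` and `ν`.
-/

set_option autoImplicit false

namespace Pool.Agent.AB46

open Polynomial Finset

/-- Coefficient extraction. -/
theorem coeff_eq_sum {F : Type*} [Field F] [Fintype F] [DecidableEq F] (H : F[X])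
    (hH : H.natDegree < Fintype.card F - 1) (k : ℕ) (hk : k < Fintype.card F - 1) :
    H.coeff k = -∑ a : Fˣ, ((a⁻¹ : Fˣ) : F) ^ k * H.eval (a : F) := by
  set q := Fintype.card F with hq
  have h1 : ∀ a : Fˣ, ((a⁻¹ : Fˣ) : F) ^ k * H.eval (a : F) =
      ∑ i ∈ range (q - 1), H.coeff i * ((a : F) ^ (i + (q - 1 - k))) := by
    intro a
    rw [eval_eq_sum_range' hH, mul_sum]
    refine sum_congr rfl fun i _ => ?_
    have h2 : ((a⁻¹ : Fˣ) : F) ^ k = (a : F) ^ (q - 1 - k) := by
      have h3 : (a : F) ^ (q - 1) = 1 := FiniteField.pow_card_sub_one_eq_one _ a.ne_zero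
      have h4 : ((a⁻¹ : Fˣ) : F) ^ k * (a : F) ^ k = 1 := by
        rw [← mul_pow, Units.inv_mul, one_pow]
      have h5 : (a : F) ^ (q - 1 - k) * (a : F) ^ k = 1 := by
        rw [← pow_add, Nat.sub_add_cancel hk.le, h3]
      have h6 : (a : F) ^ k ≠ 0 := pow_ne_zero _ a.ne_zero
      exact mul_right_cancel₀ h6 (h4.trans h5.symm)
    rw [h2, pow_add]
    ring
  have h2 : ∑ a : Fˣ, ((a⁻¹ : Fˣ) : F) ^ k * H.eval (a : F) = -H.coeff k := by
    rw [sum_congr rfl fun a _ => h1 a, sum_comm]
    have h3 : ∀ i ∈ range (q - 1), ∑ a : Fˣ, H.coeff i * ((a : F) ^ (i + (q - 1 - k))) =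
        if i = k then -H.coeff k else 0 := by
      intro i hi
      rw [← mul_sum, FiniteField.sum_pow_units]
      have hi' := mem_range.mp hi
      by_cases hik : i = k
      · subst hik
        rw [if_pos rfl, if_pos]
        · ring
        · rw [Nat.add_sub_cancel' hk.le]
      · rw [if_neg hik, if_neg, mul_zero]
        rintro ⟨c, hc⟩
        have hc1 : c = 1 := by
          have hpos : 0 < i + (q - 1 - k) := by omega
          have hlt : i + (q - 1 - k) < (q - 1) * 2 := by omega
          rw [← hq] at hc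
          rw [hc] at hpos hlt
          have : c < 2 := lt_of_mul_lt_mul_left hlt (Nat.zero_le _)
          have : 0 < c := Nat.pos_of_mul_pos_left hpos
          omega
        rw [← hq, hc1, mul_one] at hc
        omega
    rw [sum_congr rfl h3, sum_ite_eq', if_pos (mem_range.mpr hk)]
  rw [h2, neg_neg]

/-- The coefficients of the quotient by a monic polynomial, in reversed order. -/
theorem coeff_div_eq_coeff {R : Type*} [CommRing R] {ν G : R[X]} (hν : ν.Monic) {m : ℕ}
    (hm : G.natDegree ≤ m) (hNm : ν.natDegree ≤ m) {k : ℕ} (hk : k ≤ m - ν.natDegree) :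
    (G /ₘ ν).coeff (m - ν.natDegree - k) =
      (reflect m G * ∑ j ∈ range (m - ν.natDegree + 1), (1 - reflect ν.natDegree ν) ^ j).coeff k := by
  nontriviality R
  set N := ν.natDegree with hN
  set K := m - N + 1 with hK
  set Q := G /ₘ ν with hQ
  set S := ∑ j ∈ range K, (1 - reflect N ν) ^ j with hS
  have hQd : Q.natDegree ≤ m - N := by
    rw [hQ, natDegree_divByMonic G hν]
    omega
  have h1 : G = G %ₘ ν + ν * Q := (modByMonic_add_div G ν).symm
  have h2 : reflect m G = reflect m (G %ₘ ν) + reflect N ν * reflect (m - N) Q := by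
    conv_lhs => rw [h1]
    rw [reflect_add]
    congr 1
    have : m = N + (m - N) := by omega
    conv_lhs => rw [this]
    exact reflect_mul _ _ le_rfl hQd
  -- the reflected remainder is divisible by `X ^ K`
  have h3 : X ^ K ∣ reflect m (G %ₘ ν) := by
    rw [X_pow_dvd_iff]
    intro d hd
    rw [coeff_reflect, revAt_le (by omega)]
    have hlt : (G %ₘ ν).degree < ν.degree := degree_modByMonic_lt G hν
    apply coeff_eq_zero_of_degree_lt
    refine lt_of_lt_of_le hlt ?_
    rw [degree_eq_natDegree hν.ne_zero, ← hN]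
    exact_mod_cast (by omega : N ≤ m - d)
  have h4 : X ^ K ∣ (1 - reflect N ν) ^ K := by
    apply pow_dvd_pow_of_dvd
    rw [X_dvd_iff, coeff_sub, coeff_one_zero, coeff_reflect, revAt_zero, hN, hν.coeff_natDegree,
      sub_self]
  have h5 : reflect N ν * S = 1 - (1 - reflect N ν) ^ K := by
    have := mul_neg_geom_sum (1 - reflect N ν) K
    rw [sub_sub_cancel] at this
    exact this
  have h6 : X ^ K ∣ reflect m G * S - reflect (m - N) Q := by
    have e : reflect m G * S - reflect (m - N) Q =
        reflect m (G %ₘ ν) * S - reflect (m - N) Q * (1 - reflect N ν) ^ K := by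
      rw [h2]
      have : (reflect m (G %ₘ ν) + reflect N ν * reflect (m - N) Q) * S =
        reflect m (G %ₘ ν) * S + reflect (m - N) Q * (reflect N ν * S) := by ring
      rw [this, h5]
      ring
    rw [e]
    exact dvd_sub (h3.mul_right _) (h4.mul_left _)
  have h7 := X_pow_dvd_iff.mp h6 k (by omega)
  rw [coeff_sub, sub_eq_zero] at h7
  rw [h7, coeff_reflect, revAt_le hk]

theorem eval_reflect {F : Type*} [Field F] (f : F[X]) {n : ℕ} (hf : f.natDegree ≤ n) {a b : F}
    (hab : a * b = 1) : (reflect n f).eval a = a ^ n * f.eval b := by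
  have hb : b ≠ 0 := right_ne_zero_of_mul_eq_one hab
  have ha : a = b⁻¹ := eq_inv_of_mul_eq_one_left hab
  let inv : Invertible b := invertibleOfNonzero hb
  have h := eval₂_reflect_mul_pow (RingHom.id F) b n f hf
  have e : ⅟b = b⁻¹ := invOf_eq_inv b
  rw [e, ← ha] at h
  rw [eval, eval, ← h, mul_comm, mul_assoc, ← mul_pow, mul_comm b a, hab, one_pow, mul_one]

/-- **The coefficients of the quotient as sums over the non-zero elements of a finite field.** -/
theorem coeff_div_eq_sum {F : Type*} [Field F] [Fintype F] [DecidableEq F] {ν G : F[X]}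
    (hν : ν.Monic) {m : ℕ} (hm : G.natDegree ≤ m) (hNm : ν.natDegree ≤ m)
    (hq : m + ν.natDegree * (m - ν.natDegree) < Fintype.card F - 1) {k : ℕ}
    (hk : k ≤ m - ν.natDegree) :
    (G /ₘ ν).coeff (m - ν.natDegree - k) =
      -∑ b : Fˣ, (b : F) ^ k * (((b⁻¹ : Fˣ) : F) ^ m * G.eval (b : F) *
        ∑ j ∈ range (m - ν.natDegree + 1),
          (1 - ((b⁻¹ : Fˣ) : F) ^ ν.natDegree * ν.eval (b : F)) ^ j) := by
  rw [coeff_div_eq_coeff hν hm hNm hk]
  set N := ν.natDegree with hN
  set K := m - N + 1 with hK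
  set H := reflect m G * ∑ j ∈ range K, (1 - reflect N ν) ^ j with hH
  have hd1 : (reflect m G).natDegree ≤ m := by
    rw [natDegree_le_iff_coeff_eq_zero]
    intro i hi
    rw [coeff_reflect]
    apply coeff_eq_zero_of_natDegree_lt
    have : revAt m i = i := by
      rw [← revAtFun_eq, revAtFun, if_neg (by omega)]
    rw [this]
    omega
  have hd2 : (1 - reflect N ν).natDegree ≤ N := by
    refine (natDegree_sub_le _ _).trans (max_le (by simp) ?_)
    rw [natDegree_le_iff_coeff_eq_zero]
    intro i hi
    rw [coeff_reflect]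
    apply coeff_eq_zero_of_natDegree_lt
    have : revAt N i = i := by
      rw [← revAtFun_eq, revAtFun, if_neg (by omega)]
    rw [this]
    omega
  have hd3 : H.natDegree ≤ m + N * (m - N) := by
    refine natDegree_mul_le_of_le hd1 ?_
    refine natDegree_sum_le_of_forall_le _ _ fun j hj => ?_
    refine (natDegree_pow_le_of_le j hd2).trans ?_
    rw [mul_comm]
    exact Nat.mul_le_mul_left _ (by have := mem_range.mp hj; omega)
  have hk2 : k < Fintype.card F - 1 := by omega
  rw [coeff_eq_sum H (lt_of_le_of_lt hd3 hq) k hk2]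
  congr 1
  rw [← Equiv.sum_comp (Equiv.inv Fˣ)]
  refine sum_congr rfl fun b _ => ?_
  have hab : ((b⁻¹ : Fˣ) : F) * (b : F) = 1 := Units.inv_mul b
  simp only [Equiv.inv_apply, inv_inv]
  congr 1
  rw [hH, eval_mul, eval_reflect G hm hab, eval_finsetSum]
  congr 1
  refine sum_congr rfl fun j _ => ?_
  rw [eval_pow, eval_sub, eval_one, eval_reflect ν le_rfl hab]

end Pool.Agent.AB46
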